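import Mathlib

set_option autoImplicit false

namespace Pool.Agent.MP_b7f7f4_co

/-- The set of symbols occurring in a square array. -/
def symbols {n : ℕ} {S : Type} [DecidableEq S] (A : Fin n → Fin n → S) : Finset S :=
  Finset.univ.image (fun p : Fin n × Fin n => A p.1 p.2)

/-- An `n × n` array filled from an `n`-set of symbols with no repeat in a row or column. -/
def IsLatin {n : ℕ} {S : Type} [DecidableEq S] (A : Fin n → Fin n → S) : Prop :=
  (symbols A).card ≤ n ∧ (∀ x, Function.Injective (fun y => A x y)) ∧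
    (∀ y, Function.Injective (fun x => A x y))

/-- `θ` is a `k`-weight: every row, column and symbol has total weight `k`. -/
def IsWeight {n : ℕ} (L : Fin n → Fin n → Fin n) (k : ℤ) (θ : Fin n → Fin n → ℤ) : Prop :=
  (∀ x, ∑ y, θ x y = k) ∧ (∀ y, ∑ x, θ x y = k) ∧
    (∀ z, ∑ p ∈ Finset.univ.filter (fun p : Fin n × Fin n => L p.1 p.2 = z), θ p.1 p.2 = k)

/-- After rearranging rows by `α` and columns by `β`, `L` is a block matrix indexed by
`ZMod (2 * m)` with latin blocks of odd order `q`, two blocks using the same symbols exactly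
when the Cayley table of `ZMod (2 * m)` has equal entries there. -/
def HasOddBlockPattern {n : ℕ} (L : Fin n → Fin n → Fin n) (m : ℕ) : Prop :=
  ∃ q : ℕ, Odd q ∧ ∃ α β : ZMod (2 * m) × Fin q ≃ Fin n,
    (∀ i j : ZMod (2 * m), IsLatin (fun a b : Fin q => L (α (i, a)) (β (j, b)))) ∧
    ∀ i j i' j' : ZMod (2 * m),
      symbols (fun a b : Fin q => L (α (i, a)) (β (j, b))) =
        symbols (fun a b : Fin q => L (α (i', a)) (β (j', b))) ↔ i + j = i' + j'

end Pool.Agent.MP_b7f7f4_co
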