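import Mathlib
import Pool.Agent.MP_b7f7f4_co.Defs

set_option autoImplicit false

namespace Pool.Agent.MP_b7f7f4_co

open Finset

/-- Duality: no `1`-weight gives a `ℚ/ℤ`-valued labelling. -/
theorem exists_labels {n : ℕ} (L : Fin n → Fin n → Fin n)
    (h : ¬ ∃ θ, IsWeight L 1 θ) :
    ∃ r c s : Fin n → AddCircle (1 : ℚ), (∀ x y, r x + c y + s (L x y) = 0) ∧
      ∑ x, r x + ∑ y, c y + ∑ z, s z ≠ 0 := by
  classical
  let T : (Fin n → Fin n → ℤ) →+ (Fin n → ℤ) × (Fin n → ℤ) × (Fin n → ℤ) :=
    { toFun := fun θ => (fun x => ∑ y, θ x y, fun y => ∑ x, θ x y,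
        fun z => ∑ p ∈ Finset.univ.filter (fun p : Fin n × Fin n => L p.1 p.2 = z), θ p.1 p.2)
      map_zero' := by
        ext <;> simp
      map_add' := by
        intro θ θ'
        ext <;> simp [Finset.sum_add_distrib] }
  let one : (Fin n → ℤ) × (Fin n → ℤ) × (Fin n → ℤ) := (fun _ => 1, fun _ => 1, fun _ => 1)
  have h1 : one ∉ T.range := by
    rintro ⟨θ, hθ⟩
    apply h
    refine ⟨θ, ?_, ?_, ?_⟩
    · intro x; exact congrFun (congrArg Prod.fst hθ) x
    · intro y; exact congrFun (congrArg (fun v => v.2.1) hθ) y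
    · intro z; exact congrFun (congrArg (fun v => v.2.2) hθ) z
  have h2 : (QuotientAddGroup.mk' T.range one) ≠ 0 := by
    intro h0
    apply h1
    exact (QuotientAddGroup.eq_zero_iff _).1 h0
  obtain ⟨c, hc⟩ := CharacterModule.exists_character_apply_ne_zero_of_ne_zero h2
  let c' : ((Fin n → ℤ) × (Fin n → ℤ) × (Fin n → ℤ)) ⧸ T.range →+ AddCircle (1 : ℚ) := c
  let χ := c'.comp (QuotientAddGroup.mk' T.range)
  have hχ : ∀ θ, χ (T θ) = 0 := by
    intro θ
    have : QuotientAddGroup.mk' T.range (T θ) = 0 :=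
      (QuotientAddGroup.eq_zero_iff _).2 ⟨θ, rfl⟩
    simp only [χ, AddMonoidHom.comp_apply, this, map_zero]
  refine ⟨fun x => χ (Pi.single x 1, 0, 0), fun y => χ (0, Pi.single y 1, 0),
    fun z => χ (0, 0, Pi.single z 1), ?_, ?_⟩
  · intro x y
    rw [← map_add, ← map_add, ← hχ (fun x' y' => if x' = x ∧ y' = y then 1 else 0)]
    congr 1
    refine Prod.ext ?_ (Prod.ext ?_ ?_)
    · funext x'
      by_cases hx : x' = x <;> simp [T, hx, Finset.filter_eq']
    · funext y'
      by_cases hy : y' = y <;> simp [T, hy, Finset.filter_eq']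
    · funext z
      simp only [T, Prod.snd_add, zero_add, add_zero, AddMonoidHom.coe_mk, ZeroHom.coe_mk,
        Pi.single_apply]
      rw [Finset.sum_filter, Finset.sum_eq_single (x, y)]
      · simp [eq_comm]
      · intro p _ hp
        have : ¬ (p.1 = x ∧ p.2 = y) := fun hh => hp (Prod.ext hh.1 hh.2)
        simp [this]
      · simp
  · rw [← map_sum, ← map_sum, ← map_sum, ← map_add, ← map_add]
    have : (∑ x : Fin n, ((Pi.single x 1, 0, 0) : (Fin n → ℤ) × (Fin n → ℤ) × (Fin n → ℤ))) +
        ∑ y : Fin n, ((0, Pi.single y 1, 0) : (Fin n → ℤ) × (Fin n → ℤ) × (Fin n → ℤ)) +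
        ∑ z : Fin n, ((0, 0, Pi.single z 1) : (Fin n → ℤ) × (Fin n → ℤ) × (Fin n → ℤ)) = one := by
      refine Prod.ext ?_ (Prod.ext ?_ ?_) <;> funext t <;>
        simp [one, Prod.fst_sum, Prod.snd_sum, Finset.sum_apply, Pi.single_apply]
    rw [this]
    exact hc

theorem exists_equiv_of_fibers {X Y : Type} [Fintype X] [DecidableEq Y] (φ : X → Y) (q : ℕ)
    (h : ∀ y, (univ.filter (fun x => φ x = y)).card = q) :
    ∃ α : Y × Fin q ≃ X, ∀ y t, φ (α (y, t)) = y := by
  classical
  have e : ∀ y, Fin q ≃ {x // φ x = y} := fun y =>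
    (Fintype.equivFinOfCardEq (by rw [Fintype.card_subtype]; exact h y)).symm
  refine ⟨(Equiv.sigmaEquivProd Y (Fin q)).symm.trans
    ((Equiv.sigmaCongrRight e).trans (Equiv.sigmaFiberEquiv φ)), ?_⟩
  intro y t
  exact (e y t).2

theorem cyclic_of_finite (H : AddSubgroup (AddCircle (1 : ℚ))) [Finite H] : IsAddCyclic H := by
  classical
  have := Fintype.ofFinite H
  apply isAddCyclic_of_card_nsmul_eq_zero_le
  intro k hk
  have hreg : IsSMulRegular ℚ k := by
    intro a b hab
    have hk' : (k : ℚ) ≠ 0 := by exact_mod_cast hk.ne'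
    simp only [nsmul_eq_mul] at hab
    exact mul_left_cancel₀ hk' hab
  have h1 := AddCircle.card_torsion_le_of_isSMulRegular (1 : ℚ) k hk.ne' hreg
  have h2 : ((univ.filter (fun a : H => k • a = 0)).map
      ⟨Subtype.val, Subtype.val_injective⟩ : Set (AddCircle (1 : ℚ))) ⊆ {x | k • x = 0} := by
    intro x hx
    simp only [coe_map, Function.Embedding.coeFn_mk, coe_filter, mem_univ, true_and,
      Set.mem_image, Set.mem_ofPred_eq] at hx
    obtain ⟨a, ha, rfl⟩ := hx
    simpa using congrArg Subtype.val ha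
  have h3 := (Set.encard_le_encard h2).trans h1
  rw [Set.encard_coe_eq_coe_finsetCard, card_map] at h3
  exact_mod_cast h3

theorem main {n : ℕ} (L : Fin n → Fin n → Fin n) (hL : IsLatin L)
    (h : ¬ ∃ (k : ℤ) (θ : Fin n → Fin n → ℤ), Odd k ∧ IsWeight L k θ) :
    ∃ m : ℕ, 1 ≤ m ∧ HasOddBlockPattern L m := by
  classical
  obtain ⟨-, hrow, hcol⟩ := hL
  obtain ⟨r, c, s, hrel, hsum⟩ := exists_labels L (fun ⟨θ, hθ⟩ => h ⟨1, θ, odd_one, hθ⟩)
  have hn : n ≠ 0 := by
    rintro rfl
    simp at hsum
  let o : Fin n := ⟨0, Nat.pos_of_ne_zero hn⟩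
  have hrowb : ∀ x, Function.Bijective (fun y => L x y) := fun x =>
    (Finite.injective_iff_bijective).1 (hrow x)
  have hcolb : ∀ y, Function.Bijective (fun x => L x y) := fun y =>
    (Finite.injective_iff_bijective).1 (hcol y)
  -- normalised labels
  let a : Fin n → AddCircle (1 : ℚ) := fun x => r x - r o
  let b : Fin n → AddCircle (1 : ℚ) := fun y => c y - c o
  let f : Fin n → AddCircle (1 : ℚ) := fun z => -s z - r o - c o
  have hab : ∀ x y, a x + b y = f (L x y) := by
    intro x y
    have := hrel x y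
    simp only [a, b, f]
    rw [← sub_eq_zero, ← this]
    abel
  have ha0 : a o = 0 := by simp [a]
  have hb0 : b o = 0 := by simp [b]
  have haf : ∀ x, a x = f (L x o) := fun x => by rw [← hab, hb0, add_zero]
  have hbf : ∀ y, b y = f (L o y) := fun y => by rw [← hab, ha0, zero_add]
  have hsa : ∑ x, a x = ∑ z, f z := by
    simp_rw [haf]; exact (hcolb o).sum_comp f
  have hsb : ∑ x, b x = ∑ z, f z := by
    simp_rw [hbf]; exact (hrowb o).sum_comp f
  have hsumf : ∑ z, f z ≠ 0 := by
    intro h0
    apply hsum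
    have e1 : ∑ x, a x + ∑ y, b y - ∑ z, f z = ∑ x, r x + ∑ y, c y + ∑ z, s z := by
      simp only [a, b, f, Finset.sum_sub_distrib, Finset.sum_neg_distrib]
      abel
    rw [← e1, hsa, hsb, h0]; simp
  -- the subgroup
  let H : AddSubgroup (AddCircle (1 : ℚ)) :=
    { carrier := Set.range f
      zero_mem' := ⟨L o o, by rw [← hab, ha0, hb0, add_zero]⟩
      add_mem' := by
        rintro _ _ ⟨z, rfl⟩ ⟨w, rfl⟩
        obtain ⟨x, rfl⟩ := (hcolb o).2 z
        obtain ⟨y, rfl⟩ := (hrowb o).2 w
        exact ⟨L x y, by rw [← hab, haf, hbf]⟩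
      neg_mem' := by
        rintro _ ⟨z, rfl⟩
        obtain ⟨x, rfl⟩ := (hcolb o).2 z
        obtain ⟨y, hy⟩ := (hrowb x).2 (L o o)
        refine ⟨L o y, ?_⟩
        have h1 := hab x y
        simp only at hy
        rw [hy, ← hab, ha0, hb0, add_zero] at h1
        rw [← hbf, ← haf, eq_neg_iff_add_eq_zero, add_comm, h1] }
  have : Finite H := (Set.finite_range f).to_subtype
  have hcyc := cyclic_of_finite H
  set N := Nat.card H with hN
  have hNpos : 0 < N := Nat.card_pos
  have : NeZero N := ⟨hNpos.ne'⟩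
  let e : ZMod N ≃+ H := zmodAddCyclicAddEquiv hcyc
  -- labels in ZMod N
  let F : Fin n → ZMod N := fun z => e.symm ⟨f z, z, rfl⟩
  let A : Fin n → ZMod N := fun x => F (L x o)
  let B : Fin n → ZMod N := fun y => F (L o y)
  have heF : ∀ z, (e (F z) : AddCircle (1 : ℚ)) = f z := fun z => by simp [F]
  have hAB : ∀ x y, A x + B y = F (L x y) := by
    intro x y
    apply e.injective
    apply Subtype.ext
    rw [map_add, AddSubgroup.coe_add, heF, heF, heF, ← haf, ← hbf, hab]
  have hFsurj : Function.Surjective F := by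
    intro i
    obtain ⟨z, hz⟩ := (e i).2
    refine ⟨z, ?_⟩
    apply e.injective
    apply Subtype.ext
    rw [heF, hz]
  have hcount : ∀ x g, (univ.filter (fun y => A x + B y = g)).card =
      (univ.filter (fun z => F z = g)).card := by
    intro x g
    apply Finset.card_bij (fun y _ => L x y)
    · intro y hy
      simpa [hAB] using hy
    · intro y _ y' _ hyy
      exact hrow x hyy
    · intro z hz
      obtain ⟨y, rfl⟩ := (hrowb x).2 z
      exact ⟨y, by simpa [hAB] using hz, rfl⟩
  have hA0 : A o = 0 := by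
    apply e.injective
    apply Subtype.ext
    rw [heF, ← haf, ha0]; simp
  have hBF : ∀ g, (univ.filter (fun y => B y = g)).card = (univ.filter (fun z => F z = g)).card := by
    intro g
    rw [← hcount o g]
    simp [hA0]
  set q := (univ.filter (fun z => F z = 0)).card with hq
  have hFq : ∀ g, (univ.filter (fun z => F z = g)).card = q := by
    intro g
    obtain ⟨z, rfl⟩ := hFsurj g
    obtain ⟨x, rfl⟩ := (hcolb o).2 z
    rw [← hcount x, hq, ← hBF 0]
    congr 1
    ext y
    simp [A]
  have hBq : ∀ g, (univ.filter (fun y => B y = g)).card = q := fun g => (hBF g).trans (hFq g)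
  have hAq : ∀ g, (univ.filter (fun x => A x = g)).card = q := by
    intro g
    rw [← hFq g]
    apply Finset.card_bij (fun x _ => L x o)
    · intro x hx
      simpa using hx
    · intro x _ x' _ hxx
      exact hcol o hxx
    · intro z hz
      obtain ⟨x, rfl⟩ := (hcolb o).2 z
      exact ⟨x, by simpa using hz, rfl⟩
  obtain ⟨α, hα⟩ := exists_equiv_of_fibers A q hAq
  obtain ⟨β, hβ⟩ := exists_equiv_of_fibers B q hBq
  obtain ⟨γ, hγ⟩ := exists_equiv_of_fibers F q hFq
  -- parity
  have hsumF : ∑ z, F z ≠ 0 := by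
    intro h0
    apply hsumf
    have := congrArg (fun i => (e i : AddCircle (1 : ℚ))) h0
    simpa [heF] using this
  have hsum2 : ∑ z, F z = q • ∑ i : ZMod N, i := by
    rw [← γ.sum_comp, Fintype.sum_prod_type]
    simp [hγ, Finset.smul_sum]
  have htwo : 2 • ∑ i : ZMod N, i = 0 := by
    have : ∑ i : ZMod N, i = ∑ i : ZMod N, -i := (Equiv.sum_comp (Equiv.neg (ZMod N)) (fun i => i)).symm
    rw [two_smul]
    nth_rewrite 2 [this]
    rw [Finset.sum_neg_distrib, add_neg_cancel]
  have hqodd : Odd q := by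
    rcases Nat.even_or_odd q with ⟨t, ht⟩ | ho
    · exfalso
      apply hsumF
      rw [hsum2, ht, ← two_mul, mul_comm, mul_smul, htwo, smul_zero]
    · exact ho
  have hNeven : Even N := by
    rcases Nat.even_or_odd N with he | ⟨t, ht⟩
    · exact he
    · exfalso
      apply hsumF
      have h1 : N • ∑ i : ZMod N, i = 0 := by simp
      have h2 : ∑ i : ZMod N, i = 0 := by
        have h3 : (2 * t + 1) • ∑ i : ZMod N, i = 0 := by rw [← ht]; exact h1
        rwa [add_smul, mul_comm, mul_smul, htwo, smul_zero, zero_add, one_smul] at h3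
      rw [hsum2, h2, smul_zero]
  obtain ⟨m, hm⟩ := hNeven
  have hm2 : N = 2 * m := by omega
  have hqpos : 0 < q := hqodd.pos
  have hsymb : ∀ i j : ZMod N, symbols (fun a b : Fin q => L (α (i, a)) (β (j, b))) =
      univ.filter (fun z => F z = i + j) := by
    intro i j
    apply Finset.eq_of_subset_of_card_le
    · intro z hz
      simp only [symbols, mem_image, mem_univ, true_and] at hz
      obtain ⟨p, rfl⟩ := hz
      simp [← hAB, hα, hβ]
    · rw [hFq]
      have : (univ.image (fun t : Fin q => L (α (i, ⟨0, hqpos⟩)) (β (j, t)))).card = q := by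
        rw [Finset.card_image_of_injective]
        · simp
        · intro t t' htt
          have := β.injective (hrow _ htt)
          simpa using this
      refine this.symm.le.trans ?_
      apply Finset.card_le_card
      intro z hz
      simp only [symbols, mem_image, mem_univ, true_and] at hz ⊢
      obtain ⟨t, rfl⟩ := hz
      exact ⟨(⟨0, hqpos⟩, t), rfl⟩
  refine ⟨m, by omega, ?_⟩
  unfold HasOddBlockPattern
  rw [← hm2]
  refine ⟨q, hqodd, α, β, ?_, ?_⟩
  · intro i j
    refine ⟨?_, ?_, ?_⟩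
    · rw [hsymb, hFq]
    · intro t u u' huu
      have := β.injective (hrow _ huu)
      simpa using this
    · intro u t t' htt
      have := α.injective (hcol _ htt)
      simpa using this
  · intro i j i' j'
    rw [hsymb, hsymb]
    constructor
    · intro hh
      obtain ⟨z, hz⟩ := hFsurj (i + j)
      have : z ∈ univ.filter (fun z => F z = i' + j') := by rw [← hh]; simpa using hz
      rw [← hz]
      simpa using this
    · intro hh
      rw [hh]

end Pool.Agent.MP_b7f7f4_co
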